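import Pool.Agent.KS6_19.AO

/-!
# MP_719c39_co: which configurations of points and directed lines have an alternating ordering

`n` points and `m` directed hyperplanes of a real vector space, no point on a hyperplane. There is
a listing `p_1, l_1, p_2, …, l_{n-1}, p_n` of all the points and of `n - 1` different hyperplanes
with `p_i` on the left and `p_{i+1}` on the right of `l_i` if and only if for any two sets `U`, `W`
of points at least `|U| + |W| - n - 1` hyperplanes have a point of `U` on their left side and a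
point of `W` on their right side. The deficiency-one hull condition implies this, for any number of
hyperplanes and in any dimension; for `n` points and `n` directed lines of the plane this answers
both questions of the problem.
-/

set_option autoImplicit false

open Finset

namespace Pool.Agent.Results.MP_719c39_co.HallCriterion

open Pool.Agent.KS6_19.AO

universe u

/-- `g j` is the affine functional of the `j`-th directed hyperplane `{g j = 0}`: its left side is
`{0 < g j}` and its right side is `{g j < 0}`. An alternating ordering: a listing `σ 0, …, σ (n-1)`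
of all the (indices of the) points and different hyperplanes `τ 0, …, τ (n - 2)` such that
`p (σ i)` is on the left side and `p (σ (i + 1))` on the right side of the hyperplane `τ i`. -/
def AlternatingOrdering {V : Type u} [AddCommGroup V] [Module ℝ V] {n m : ℕ} (p : Fin n → V)
    (g : Fin m → (V →ᵃ[ℝ] ℝ)) : Prop :=
  ∃ (σ : Equiv.Perm (Fin n)) (τ : Fin (n - 1) → Fin m), Function.Injective τ ∧
    ∀ (i : ℕ) (h : i + 1 < n), 0 < g (τ ⟨i, by omega⟩) (p (σ ⟨i, by omega⟩)) ∧
      g (τ ⟨i, by omega⟩) (p (σ ⟨i + 1, h⟩)) < 0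

/-- A directed line of the plane, given by one of its points and its direction. -/
structure DirectedLine where
  base : ℝ × ℝ
  dir : ℝ × ℝ
  dir_ne : dir ≠ 0

/-- The determinant of the direction of `l` and the vector from the base point of `l` to `x`. -/
def DirectedLine.side (l : DirectedLine) (x : ℝ × ℝ) : ℝ :=
  l.dir.1 * (x.2 - l.base.2) - l.dir.2 * (x.1 - l.base.1)

/-- The set of the points of the line. -/
def DirectedLine.carrier (l : DirectedLine) : Set (ℝ × ℝ) := {x | l.side x = 0}

/-- The open half-plane on the left of the directed line. -/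
def DirectedLine.left (l : DirectedLine) : Set (ℝ × ℝ) := {x | 0 < l.side x}

/-- The open half-plane on the right of the directed line. -/
def DirectedLine.right (l : DirectedLine) : Set (ℝ × ℝ) := {x | l.side x < 0}

/-! ### The hull condition -/

theorem deficiency_of_hull {V : Type u} [AddCommGroup V] [Module ℝ V] {n m : ℕ} (p : Fin n → V)
    (g : Fin m → V → ℝ) (hc : ∀ j, Convex ℝ {x | 0 < g j x}) (hc' : ∀ j, Convex ℝ {x | g j x < 0})
    (hgen : ∀ i j, g j (p i) ≠ 0)
    (hull : ∀ X : Finset (Fin n), X.card ≤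
      {j | ∃ z ∈ convexHull ℝ (p '' (X : Set (Fin n))), g j z = 0}.ncard + 1)
    (X : Finset (Fin n)) : X.card ≤ (cuts (fun i j => 0 < g j (p i)) X X).card + 1 := by
  classical
  refine (hull X).trans (Nat.succ_le_succ ?_)
  rw [← Set.ncard_coe_finset]
  apply Set.ncard_le_ncard _ (Finset.finite_toSet _)
  rintro j ⟨z, hz, hz0⟩
  rw [Finset.mem_coe, mem_cuts]
  refine ⟨?_, ?_⟩
  · by_contra hcon
    push Not at hcon
    have hsub : p '' (X : Set (Fin n)) ⊆ {x | g j x < 0} := by
      rintro _ ⟨i, hi, rfl⟩
      exact lt_of_le_of_ne (hcon i hi) (hgen i j)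
    have h1 : g j z < 0 := convexHull_min hsub (hc' j) hz
    linarith
  · by_contra hcon
    push Not at hcon
    have hsub : p '' (X : Set (Fin n)) ⊆ {x | 0 < g j x} := by
      rintro _ ⟨i, hi, rfl⟩
      exact hcon i hi
    have h1 : 0 < g j z := convexHull_min hsub (hc j) hz
    linarith

theorem ordering_of_altOrder {V : Type u} {n m : ℕ} (p : Fin n → V)
    (g : Fin m → V → ℝ) (hgen : ∀ i j, g j (p i) ≠ 0)
    (h : AltOrder (fun i j => 0 < g j (p i)) n) :
    ∃ (σ : Equiv.Perm (Fin n)) (τ : Fin (n - 1) → Fin m), Function.Injective τ ∧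
      ∀ (i : ℕ) (h : i + 1 < n), 0 < g (τ ⟨i, by omega⟩) (p (σ ⟨i, by omega⟩)) ∧
        g (τ ⟨i, by omega⟩) (p (σ ⟨i + 1, h⟩)) < 0 := by
  obtain ⟨σ, τ, hσ, hτ, h⟩ := h
  refine ⟨Equiv.ofBijective σ hσ, τ, hτ, fun i hi => ⟨(h i hi).1, ?_⟩⟩
  exact lt_of_le_of_ne (not_lt.1 (h i hi).2) (hgen _ _)

theorem convex_pos (l : DirectedLine) : Convex ℝ {x | 0 < l.side x} ∧
    Convex ℝ {x | l.side x < 0} := by
  let a : ℝ × ℝ →ᵃ[ℝ] ℝ :=
    ((-l.dir.2) • (LinearMap.fst ℝ ℝ ℝ) + l.dir.1 • (LinearMap.snd ℝ ℝ ℝ)).toAffineMap +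
      AffineMap.const ℝ (ℝ × ℝ) (l.dir.2 * l.base.1 - l.dir.1 * l.base.2)
  have ha : ∀ x, a x = l.side x := by
    intro x
    simp [a, DirectedLine.side]
    ring
  have h1 := (convex_Ioi (𝕜 := ℝ) (0 : ℝ)).affine_preimage a
  have h2 := (convex_Iio (𝕜 := ℝ) (0 : ℝ)).affine_preimage a
  have e1 : a ⁻¹' Set.Ioi 0 = {x | 0 < l.side x} := by
    ext x; simp [ha]
  have e2 : a ⁻¹' Set.Iio 0 = {x | l.side x < 0} := by
    ext x; simp [ha]
  rw [e1] at h1
  rw [e2] at h2
  exact ⟨h1, h2⟩

/-- an injection of `Fin (n - 1)` extends to a permutation -/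
theorem extendPerm (n : ℕ) (τ : Fin (n - 1) → Fin n) (hτ : Function.Injective τ) :
    ∃ π : Equiv.Perm (Fin n), ∀ (i : ℕ) (h : i + 1 < n), π ⟨i, by omega⟩ = τ ⟨i, by omega⟩ := by
  rcases Nat.eq_zero_or_pos n with hn | hn
  · exact ⟨Equiv.refl _, fun i h => by omega⟩
  obtain ⟨e, he⟩ := extendOption τ hτ (by rw [Fintype.card_fin, Fintype.card_fin]; omega)
  let f : Fin n → Fin n := fun i => e (if h : i.1 < n - 1 then some ⟨i.1, h⟩ else none)
  have hf : Function.Injective f := by
    intro i j hij
    have h1 := e.injective hij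
    by_cases hi : i.1 < n - 1 <;> by_cases hj : j.1 < n - 1
    · rw [dif_pos hi, dif_pos hj] at h1
      simpa [Fin.ext_iff] using h1
    · rw [dif_pos hi, dif_neg hj] at h1
      exact absurd h1 (by simp)
    · rw [dif_neg hi, dif_pos hj] at h1
      exact absurd h1 (by simp)
    · have := i.2
      have := j.2
      exact Fin.ext (by omega)
  refine ⟨Equiv.ofBijective f (Finite.injective_iff_bijective.1 hf), fun i h => ?_⟩
  rw [Equiv.ofBijective_apply]
  simp only [f]
  rw [dif_pos (show i < n - 1 by omega)]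
  exact he _

/-- **Alternating orderings.** (1) The criterion: `n` points and `m` directed hyperplanes of a real
vector space, no point on a hyperplane, have an alternating ordering if and only if for all sets
`U`, `W` of points at least `|U| + |W| - n - 1` of the hyperplanes have a point of `U` on their left
side and a point of `W` on their right side. (2) If at least `|X| - 1` of the hyperplanes meet the
convex hull of `X`, for every nonempty set `X` of the points, then there is an alternating
ordering. (3) For `n` points and `n` directed lines of the plane in general position which satisfy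
the deficiency-one hull condition there is a listing `p_1, l_1, …, p_n, l_n` of all of them such
that `p_i` is on the left and `p_{i+1}` on the right side of `l_i` for all `i < n`. -/
theorem result :
    (∀ (V : Type u) [AddCommGroup V] [Module ℝ V] (n m : ℕ) (p : Fin n → V)
      (g : Fin m → (V →ᵃ[ℝ] ℝ)), (∀ i j, g j (p i) ≠ 0) →
      (AlternatingOrdering p g ↔
        ∀ U W : Finset (Fin n), U.card + W.card ≤
          {j | (∃ i ∈ U, 0 < g j (p i)) ∧ ∃ i ∈ W, g j (p i) < 0}.ncard + n + 1)) ∧
    (∀ (V : Type u) [AddCommGroup V] [Module ℝ V] (n m : ℕ) (p : Fin n → V)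
      (g : Fin m → (V →ᵃ[ℝ] ℝ)), (∀ i j, g j (p i) ≠ 0) →
      (∀ X : Finset (Fin n), X.card ≤
        {j | ∃ z ∈ convexHull ℝ (p '' (X : Set (Fin n))), g j z = 0}.ncard + 1) →
      AlternatingOrdering p g) ∧
    (∀ (n : ℕ) (p : Fin n → ℝ × ℝ) (l : Fin n → DirectedLine), (∀ i j, p i ∉ (l j).carrier) →
      (∀ X : Finset (Fin n), X.card ≤
        {j | ((l j).carrier ∩ convexHull ℝ (p '' (X : Set (Fin n)))).Nonempty}.ncard + 1) →
      ∃ σ τ : Equiv.Perm (Fin n), ∀ (i : ℕ) (h : i + 1 < n),
        p (σ ⟨i, by omega⟩) ∈ (l (τ ⟨i, by omega⟩)).left ∧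
          p (σ ⟨i + 1, h⟩) ∈ (l (τ ⟨i, by omega⟩)).right) := by
  classical
  refine ⟨?_, ?_, ?_⟩
  · intro V _ _ n m p g hgen
    have hcuts : ∀ U W : Finset (Fin n),
        {j | (∃ i ∈ U, 0 < g j (p i)) ∧ ∃ i ∈ W, g j (p i) < 0}.ncard =
          (cuts (fun i j => 0 < g j (p i)) U W).card := by
      intro U W
      rw [← Set.ncard_coe_finset]
      congr 1
      ext j
      rw [Finset.mem_coe, mem_cuts]
      constructor
      · rintro ⟨h1, i, hi, h2⟩
        exact ⟨h1, i, hi, not_lt.2 h2.le⟩
      · rintro ⟨h1, i, hi, h2⟩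
        exact ⟨h1, i, hi, lt_of_le_of_ne (not_lt.1 h2) (hgen i j)⟩
    have key := altOrder_iff (P := Fin n) (L := Fin m) (fun i j => 0 < g j (p i))
    rw [Fintype.card_fin] at key
    constructor
    · rintro ⟨σ, τ, hτ, h⟩ U W
      rw [hcuts]
      exact key.1 ⟨σ, τ, σ.bijective, hτ, fun i hi => ⟨(h i hi).1, not_lt.2 (h i hi).2.le⟩⟩ U W
    · intro h
      exact ordering_of_altOrder p (fun j => g j) hgen (key.2 fun U W => by
        rw [← hcuts]; exact h U W)
  · intro V _ _ n m p g hgen hull
    have h1 := deficiency_of_hull p (fun j => g j)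
      (fun j => (convex_Ioi (𝕜 := ℝ) (0 : ℝ)).affine_preimage (g j))
      (fun j => (convex_Iio (𝕜 := ℝ) (0 : ℝ)).affine_preimage (g j)) hgen hull
    exact ordering_of_altOrder p (fun j => g j) hgen
      (altOrder_of_criterion _ n (Fintype.card_fin n) fun U W => by
        have := criterion_of_deficiency (fun (i : Fin n) (j : Fin m) => 0 < g j (p i)) h1 U W
        rwa [Fintype.card_fin] at this)
  · intro n p l hgen hull
    have hgen' : ∀ i j, (l j).side (p i) ≠ 0 := fun i j h => hgen i j h
    have h1 := deficiency_of_hull p (fun j => (l j).side)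
      (fun j => (convex_pos (l j)).1) (fun j => (convex_pos (l j)).2) hgen' (by
        intro X
        refine (hull X).trans (Nat.succ_le_succ (Set.ncard_le_ncard ?_ (Set.toFinite _)))
        rintro j ⟨z, hz, hz'⟩
        exact ⟨z, hz', hz⟩)
    obtain ⟨σ, τ, hτ, h⟩ := ordering_of_altOrder p (fun j => (l j).side) hgen'
      (altOrder_of_criterion _ n (Fintype.card_fin n) fun U W => by
        have := criterion_of_deficiency (fun (i : Fin n) (j : Fin n) => 0 < (l j).side (p i)) h1 U W
        rwa [Fintype.card_fin] at this)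
    obtain ⟨π, hπ⟩ := extendPerm n τ hτ
    refine ⟨σ, π, fun i hi => ?_⟩
    rw [hπ i hi]
    exact h i hi

end Pool.Agent.Results.MP_719c39_co.HallCriterion
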